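import Pool.Agent.Helper38.SP2.SpecA
import Pool.Agent.Helper38.SP.DvrFin

/-!
# Project SP, second part: the discrete valuation ring for a given specialisation

BLUEPRINT. Adapt `exists_dvr_point` in `Pool/Agent/Helper38/SP/DvrFin.lean`, with the point `s`
from `exists_padic_point` (so `‖s i‖ ≤ 1` as `t₀ i` is an integer). Then `t i` is in `padicRing p ι`
(hence integral over it and in the range of `algebraMap R L`, which gives `γ i`), and
`t i - t₀ i` is in its maximal ideal (norm `< 1`). To see that `γ i - t₀ i` is in the maximal ideal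
of `R` you need that `R` dominates `padicRing p ι`: `exists_dvr_int` (`SP/DvrInt.lean`) does not say
it, but it follows: `(t i - t₀ i) / p` has norm `≤ 1` (norms of elements of `ℚ_[p]` are powers of
`p`), so it lies in `padicRing p ι`, so in `R`, and `p` is in the maximal ideal of `R`.
-/

set_option autoImplicit false

open Polynomial

namespace Pool.Agent.Helper38.SP2

/-- elements of `ℚ_[p]` of norm less than one are divisible by `p` -/
private theorem specB_norm (p : ℕ) [Fact p.Prime] (x : ℚ_[p]) (hx : ‖x‖ < 1) :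
    ‖x / (p : ℚ_[p])‖ ≤ 1 := by
  have hp1 : (0 : ℝ) < p := by exact_mod_cast (Fact.out : p.Prime).pos
  have h1 : ‖x‖ ≤ (p : ℝ) ^ (-1 : ℤ) := by
    rw [Padic.norm_le_pow_iff_norm_lt_pow_add_one]
    simpa using hx
  rw [norm_div, Padic.norm_p, div_le_one (by positivity)]
  simpa using h1

/-- the discrete valuation ring for a given specialisation -/
theorem exists_dvr_spec {r m : ℕ} (t : Fin r → ℂ) (ht : AlgebraicIndependent ℚ t)
    (a : Fin m → ℂ) (L : IntermediateField (IntermediateField.adjoin ℚ (Set.range t)) ℂ)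
    (hL : FiniteDimensional (IntermediateField.adjoin ℚ (Set.range t)) L) (haL : ∀ i, a i ∈ L)
    (D : MvPolynomial (Fin r) ℤ)
    (hD : ∀ i, ∃ P : (MvPolynomial (Fin r) ℤ)[X], P.leadingCoeff ∣ D ∧
      P.eval₂ (MvPolynomial.aeval t : MvPolynomial (Fin r) ℤ →ₐ[ℤ] ℂ).toRingHom (a i) = 0)
    (t₀ : Fin r → ℤ) (p : ℕ) [Fact p.Prime] (hp : ¬ (p : ℤ) ∣ MvPolynomial.eval t₀ D) :
    ∃ (R : Type) (_ : CommRing R) (_ : IsDomain R) (_ : CharZero R)
      (_ : IsDiscreteValuationRing R) (j : R →+* ℂ),
      Finite (IsLocalRing.ResidueField R) ∧ (p : R) ∈ IsLocalRing.maximalIdeal R ∧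
      Function.Injective j ∧ (∀ i, a i ∈ Set.range j) ∧
      ∃ γ : Fin r → R, (∀ i, j (γ i) = t i) ∧
        ∀ i, γ i - (t₀ i : R) ∈ IsLocalRing.maximalIdeal R := by
  classical
  obtain ⟨s, hs, hs1, hsD⟩ := exists_padic_point D t₀ p hp
  have hs2 : ∀ i, ‖s i‖ ≤ 1 := by
    intro i
    have h1 : s i = (s i - (t₀ i : ℚ_[p])) + (t₀ i : ℚ_[p]) := by ring
    rw [h1]
    refine (Padic.nonarchimedean _ _).trans (max_le (hs1 i).le ?_)
    exact Padic.norm_int_le_one _
  obtain ⟨ι, hι⟩ := Pool.Agent.Helper38.SP.dvrFin_ringHom_adjoin t s ht hs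
  let s' : Fin r → ℤ_[p] := fun i => ⟨s i, hs2 i⟩
  -- values of integral polynomials
  have hint : ∀ Q : MvPolynomial (Fin r) ℤ, ‖MvPolynomial.aeval s Q‖ ≤ 1 := by
    intro Q
    have h1 : MvPolynomial.aeval s Q
        = ((MvPolynomial.aeval s' Q : ℤ_[p]) : ℚ_[p]) := by
      have h2 : (MvPolynomial.aeval s : MvPolynomial (Fin r) ℤ →ₐ[ℤ] ℚ_[p]).toRingHom
          = (PadicInt.Coe.ringHom).comp
            (MvPolynomial.aeval s' : MvPolynomial (Fin r) ℤ →ₐ[ℤ] ℤ_[p]).toRingHom := by
        apply MvPolynomial.ringHom_ext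
        · intro n
          simp
        · intro i
          simp [s']
      exact congrArg (fun f : MvPolynomial (Fin r) ℤ →+* ℚ_[p] => f Q) h2
    rw [h1]
    exact PadicInt.norm_le_one _
  let tK : Fin r → IntermediateField.adjoin ℚ (Set.range t) :=
    fun i => ⟨t i, IntermediateField.subset_adjoin ℚ _ ⟨i, rfl⟩⟩
  have hιt : ∀ i, ι (tK i) = s i := hι
  have hιQ : ∀ Q : MvPolynomial (Fin r) ℤ, ι (MvPolynomial.aeval tK Q) = MvPolynomial.aeval s Q := by
    intro Q
    have h2 : ι.comp (MvPolynomial.aeval tK :
          MvPolynomial (Fin r) ℤ →ₐ[ℤ] IntermediateField.adjoin ℚ (Set.range t)).toRingHom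
        = (MvPolynomial.aeval s : MvPolynomial (Fin r) ℤ →ₐ[ℤ] ℚ_[p]).toRingHom := by
      apply MvPolynomial.ringHom_ext
      · intro n
        simp
      · intro i
        simp [tK, hι]
    exact congrArg (fun f : MvPolynomial (Fin r) ℤ →+* ℚ_[p] => f Q) h2
  have hmem : ∀ Q : MvPolynomial (Fin r) ℤ,
      MvPolynomial.aeval tK Q ∈ Pool.Agent.Helper37.padicRing p ι := by
    intro Q
    rw [Pool.Agent.Helper37.mem_padicRing, hιQ]
    exact hint Q
  let τ : MvPolynomial (Fin r) ℤ →+* Pool.Agent.Helper37.padicRing p ι :=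
    RingHom.codRestrict (MvPolynomial.aeval tK :
      MvPolynomial (Fin r) ℤ →ₐ[ℤ] IntermediateField.adjoin ℚ (Set.range t)).toRingHom _ hmem
  obtain ⟨R, _, _, _, _, _, hFrac, hpR, hfin, hrange⟩ := Pool.Agent.Helper38.SP.exists_dvr_int p
    (R₀ := Pool.Agent.Helper37.padicRing p ι)
    (K₀ := IntermediateField.adjoin ℚ (Set.range t)) (K := L)
    (Pool.Agent.Helper37.p_mem_maximalIdeal p _)
    (Pool.Agent.Helper37.card_residueField_padicRing p _)
  have hRinj : Function.Injective (algebraMap R L) := IsFractionRing.injective R L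
  -- elements of the p-adic ring come from `R`
  have hlift : ∀ x : IntermediateField.adjoin ℚ (Set.range t), ‖ι x‖ ≤ 1 →
      ∃ y : R, algebraMap R L y =
        algebraMap (IntermediateField.adjoin ℚ (Set.range t)) L x := by
    intro x hx
    have h1 : ((algebraMap (IntermediateField.adjoin ℚ (Set.range t)) L).comp
        (algebraMap (Pool.Agent.Helper37.padicRing p ι)
          (IntermediateField.adjoin ℚ (Set.range t)))).IsIntegralElem
        (algebraMap (IntermediateField.adjoin ℚ (Set.range t)) L x) := by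
      have h2 := RingHom.isIntegralElem_map
        (f := (algebraMap (IntermediateField.adjoin ℚ (Set.range t)) L).comp
          (algebraMap (Pool.Agent.Helper37.padicRing p ι)
            (IntermediateField.adjoin ℚ (Set.range t))))
        (x := (⟨x, hx⟩ : Pool.Agent.Helper37.padicRing p ι))
      exact h2
    exact hrange _ h1
  refine ⟨R, inferInstance, inferInstance, inferInstance, inferInstance,
    (algebraMap L ℂ).comp (algebraMap R L), hfin, hpR,
    (algebraMap L ℂ).injective.comp hRinj, fun i => ?_, ?_⟩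
  · obtain ⟨P, hPD, hP0⟩ := hD i
    obtain ⟨c, hc⟩ := hPD
    -- the leading coefficient is a unit
    have hl : ‖MvPolynomial.aeval s P.leadingCoeff‖ = 1 := by
      have h1 := hint P.leadingCoeff
      have h2 := hint c
      have h3 : ‖MvPolynomial.aeval s P.leadingCoeff‖ * ‖MvPolynomial.aeval s c‖ = 1 := by
        rw [← norm_mul, ← map_mul, ← hc, hsD]
      nlinarith [norm_nonneg (MvPolynomial.aeval s P.leadingCoeff),
        norm_nonneg (MvPolynomial.aeval s c)]
    have hlu : IsUnit (τ P.leadingCoeff) := by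
      rw [Pool.Agent.Helper37.isUnit_padicRing_iff]
      change ‖ι (MvPolynomial.aeval tK P.leadingCoeff)‖ = 1
      rw [hιQ, hl]
    obtain ⟨u, hu⟩ := hlu.exists_left_inv
    have hx : ((algebraMap (IntermediateField.adjoin ℚ (Set.range t)) L).comp
        (algebraMap (Pool.Agent.Helper37.padicRing p ι)
          (IntermediateField.adjoin ℚ (Set.range t)))).IsIntegralElem
        (⟨a i, haL i⟩ : L) := by
      refine ⟨Polynomial.C u * P.map τ, ?_, ?_⟩
      · refine Polynomial.monic_of_natDegree_le_of_coeff_eq_one P.natDegree ?_ ?_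
        · exact (Polynomial.natDegree_C_mul_le _ _).trans Polynomial.natDegree_map_le
        · rw [Polynomial.coeff_C_mul, Polynomial.coeff_map]
          exact hu
      · rw [Polynomial.eval₂_mul, Polynomial.eval₂_map]
        apply mul_eq_zero_of_right
        apply (algebraMap L ℂ).injective
        rw [map_zero, Polynomial.hom_eval₂]
        have h2 : (algebraMap L ℂ).comp
            ((((algebraMap (IntermediateField.adjoin ℚ (Set.range t)) L).comp
        (algebraMap (Pool.Agent.Helper37.padicRing p ι)
          (IntermediateField.adjoin ℚ (Set.range t)))).comp τ))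
            = (MvPolynomial.aeval t : MvPolynomial (Fin r) ℤ →ₐ[ℤ] ℂ).toRingHom := by
          apply MvPolynomial.ringHom_ext
          · intro n
            simp
          · intro i
            have h3 : (((τ (MvPolynomial.X i) : Pool.Agent.Helper37.padicRing p ι) :
                IntermediateField.adjoin ℚ (Set.range t)) : ℂ) = t i := by
              change ((MvPolynomial.aeval tK (MvPolynomial.X i : MvPolynomial (Fin r) ℤ) :
                IntermediateField.adjoin ℚ (Set.range t)) : ℂ) = t i
              rw [MvPolynomial.aeval_X]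
            have h4 : (MvPolynomial.aeval t : MvPolynomial (Fin r) ℤ →ₐ[ℤ] ℂ).toRingHom
                (MvPolynomial.X i) = t i := by
              simp
            rw [h4]
            exact h3
        rw [h2]
        exact hP0
    obtain ⟨y, hy⟩ := hrange _ hx
    refine ⟨y, ?_⟩
    rw [RingHom.comp_apply, hy]
    rfl
  · have hγ : ∀ i, ∃ y : R, algebraMap R L y =
        algebraMap (IntermediateField.adjoin ℚ (Set.range t)) L (tK i) := by
      intro i
      refine hlift _ ?_
      rw [hιt]
      exact hs2 i
    choose γ hγ using hγ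
    refine ⟨γ, ?_, ?_⟩
    · intro i
      rw [RingHom.comp_apply, hγ]
      rfl
    · intro i
      have hpK : ((p : IntermediateField.adjoin ℚ (Set.range t))) ≠ 0 := by
        exact_mod_cast (Fact.out : p.Prime).ne_zero
      obtain ⟨y, hy⟩ := hlift ((tK i - (t₀ i : IntermediateField.adjoin ℚ (Set.range t))) /
        (p : IntermediateField.adjoin ℚ (Set.range t))) (by
          rw [map_div₀, map_sub, map_intCast, map_natCast, hιt]
          exact specB_norm p _ (hs1 i))
      have h1 : γ i - (t₀ i : R) = (p : R) * y := by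
        apply hRinj
        rw [map_sub, map_mul, hγ, hy, map_intCast, map_natCast, map_div₀, map_sub, map_intCast,
          map_natCast]
        rw [mul_div_cancel₀]
        rw [← map_natCast (algebraMap (IntermediateField.adjoin ℚ (Set.range t)) L)]
        exact (_root_.map_ne_zero _).2 hpK
      rw [h1]
      exact Ideal.mul_mem_right _ _ hpR

end Pool.Agent.Helper38.SP2
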