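import Pool.Agent.Helper38.SP.DvrTower

/-!
# Project SP, second part: a common denominator, relative version

BLUEPRINT. Adapt `exists_denominator` in `Pool/Agent/Helper38/SP/DvrTower.lean`. Instead of
`exists_tower_gen` (`Pool/Agent/Helper38/Sym/GenPoint.lean`) extend the independent set
`Set.range c` to a basis of `Set.range c ∪ Set.range a` of the matroid
`AlgebraicIndependent.matroid ℚ ℂ` (`Matroid.Indep.subset_isBasis_of_subset` or the like) and
enumerate the rest of the basis as `t : Fin r → ℂ`.
-/

set_option autoImplicit false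

open Polynomial

namespace Pool.Agent.Helper38.SP2

open scoped IntermediateField.algebraAdjoinAdjoin in
/-- relative version of `exists_tower_gen` -/
private theorem specC_tower {n m : ℕ} (c : Fin n → ℂ) (hc : AlgebraicIndependent ℚ c)
    (a : Fin m → ℂ) :
    ∃ (r : ℕ) (t : Fin r → ℂ), AlgebraicIndependent ℚ (Fin.append c t) ∧
      ∃ L : IntermediateField (IntermediateField.adjoin ℚ (Set.range (Fin.append c t))) ℂ,
        FiniteDimensional (IntermediateField.adjoin ℚ (Set.range (Fin.append c t))) L ∧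
          ∀ i, a i ∈ L := by
  classical
  have hcI : (AlgebraicIndependent.matroid ℚ ℂ).Indep (Set.range c) := by
    rw [AlgebraicIndependent.matroid_indep_iff]
    exact hc.coe_range
  obtain ⟨s, hs, hcs⟩ := hcI.subset_isBasis_of_subset
    (Set.subset_union_left (s := Set.range c) (t := Set.range a)) (Set.subset_univ _)
  rw [AlgebraicIndependent.matroid_isBasis_iff] at hs
  obtain ⟨hind, hsub, halg⟩ := hs
  have hfin : s.Finite := ((Set.finite_range c).union (Set.finite_range a)).subset hsub
  have hfin' : (s \ Set.range c).Finite := hfin.subset Set.sdiff_subset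
  have : Fintype (s \ Set.range c : Set ℂ) := hfin'.fintype
  let e := Fintype.equivFin (s \ Set.range c : Set ℂ)
  let t : Fin (Fintype.card (s \ Set.range c : Set ℂ)) → ℂ := fun i => (e.symm i : ℂ)
  have htmem : ∀ i, t i ∈ s \ Set.range c := fun i => (e.symm i).2
  have hmem : ∀ i, Fin.append c t i ∈ s := by
    intro i
    induction i using Fin.addCases with
    | left i => rw [Fin.append_left]; exact hcs ⟨i, rfl⟩
    | right i => rw [Fin.append_right]; exact (htmem i).1
  have hinj : Function.Injective (Fin.append c t) := by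
    rw [Fin.append_injective_iff]
    refine ⟨hc.injective, ?_, ?_⟩
    · intro i j hij
      exact e.symm.injective (Subtype.ext hij)
    · intro i j hij
      exact (htmem j).2 ⟨i, hij⟩
  have ht : AlgebraicIndependent ℚ (Fin.append c t) := by
    have h1 := AlgebraicIndependent.comp hind (fun i => (⟨Fin.append c t i, hmem i⟩ : s))
      (fun i j hij => hinj (congrArg Subtype.val hij))
    exact h1
  have hrange : Set.range (Fin.append c t) = s := by
    ext x
    constructor
    · rintro ⟨i, rfl⟩
      exact hmem i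
    · intro hx
      by_cases hxc : x ∈ Set.range c
      · obtain ⟨i, rfl⟩ := hxc
        exact ⟨Fin.castAdd _ i, Fin.append_left _ _ _⟩
      · refine ⟨Fin.natAdd _ (e ⟨x, hx, hxc⟩), ?_⟩
        rw [Fin.append_right]
        simp [t]
  rw [← hrange] at halg
  refine ⟨_, t, ht, IntermediateField.adjoin _ (Set.range a), ?_, fun i =>
    IntermediateField.subset_adjoin _ _ ⟨i, rfl⟩⟩
  have hfr : Finite (Set.range a) := (Set.finite_range a).to_subtype
  apply IntermediateField.finiteDimensional_adjoin
  intro x hx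
  have h1 := halg x (Or.inr hx)
  exact (h1.extendScalars
    (S := IntermediateField.adjoin ℚ (Set.range (Fin.append c t)))
    (FaithfulSMul.algebraMap_injective _ _)).isIntegral

/-- the denominator part of `exists_denominator` -/
private theorem specC_den {r m : ℕ} (t : Fin r → ℂ) (a : Fin m → ℂ)
    (L : IntermediateField (IntermediateField.adjoin ℚ (Set.range t)) ℂ)
    (hL : FiniteDimensional (IntermediateField.adjoin ℚ (Set.range t)) L) (haL : ∀ i, a i ∈ L) :
    ∃ D : MvPolynomial (Fin r) ℤ, D ≠ 0 ∧ ∀ i, ∃ P : (MvPolynomial (Fin r) ℤ)[X],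
        P.leadingCoeff ∣ D ∧
        P.eval₂ (MvPolynomial.aeval t : MvPolynomial (Fin r) ℤ →ₐ[ℤ] ℂ).toRingHom (a i) = 0 := by
  classical
  let tK : Fin r → IntermediateField.adjoin ℚ (Set.range t) :=
    fun i => ⟨t i, IntermediateField.subset_adjoin _ _ ⟨i, rfl⟩⟩
  let _ : Algebra (MvPolynomial (Fin r) ℤ) (IntermediateField.adjoin ℚ (Set.range t)) :=
    (MvPolynomial.aeval tK : MvPolynomial (Fin r) ℤ →ₐ[ℤ] _).toRingHom.toAlgebra
  let _ : Algebra (MvPolynomial (Fin r) ℤ) ℂ :=
    (MvPolynomial.aeval t : MvPolynomial (Fin r) ℤ →ₐ[ℤ] ℂ).toRingHom.toAlgebra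
  have hmapK : ∀ p, algebraMap (MvPolynomial (Fin r) ℤ)
      (IntermediateField.adjoin ℚ (Set.range t)) p = MvPolynomial.aeval tK p := fun _ => rfl
  have hmapC : ∀ p, algebraMap (MvPolynomial (Fin r) ℤ) ℂ p = MvPolynomial.aeval t p := fun _ => rfl
  have hval : ∀ i, algebraMap (IntermediateField.adjoin ℚ (Set.range t)) ℂ (tK i) = t i :=
    fun _ => rfl
  have : IsScalarTower (MvPolynomial (Fin r) ℤ) (IntermediateField.adjoin ℚ (Set.range t)) ℂ := by
    refine IsScalarTower.of_algebraMap_eq fun p => ?_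
    rw [hmapK, hmapC, MvPolynomial.aeval_def, MvPolynomial.aeval_def, MvPolynomial.hom_eval₂]
    congr 1
  have hX : ∀ i, IsAlgebraic (MvPolynomial (Fin r) ℤ) (tK i) := by
    intro i
    have h1 : tK i = algebraMap (MvPolynomial (Fin r) ℤ) _ (MvPolynomial.X i) := by
      rw [hmapK, MvPolynomial.aeval_X]
    rw [h1]
    exact isAlgebraic_algebraMap _
  have hZ : ∀ n : ℤ, IsAlgebraic (MvPolynomial (Fin r) ℤ)
      (n : IntermediateField.adjoin ℚ (Set.range t)) := fun n => isAlgebraic_intCast n
  have hQ : ∀ q : ℚ, IsAlgebraic (MvPolynomial (Fin r) ℤ)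
      (algebraMap ℚ (IntermediateField.adjoin ℚ (Set.range t)) q) := by
    intro q
    have h1 : algebraMap ℚ (IntermediateField.adjoin ℚ (Set.range t)) q =
        ((q.num : ℤ) : IntermediateField.adjoin ℚ (Set.range t)) *
          (((q.den : ℤ)) : IntermediateField.adjoin ℚ (Set.range t))⁻¹ := by
      conv_lhs => rw [← Rat.num_div_den q]
      simp [div_eq_mul_inv]
    rw [h1]
    exact (hZ _).mul (hZ _).inv
  have hP : ∀ p : MvPolynomial (Fin r) ℚ, IsAlgebraic (MvPolynomial (Fin r) ℤ)
      (MvPolynomial.aeval tK p) := by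
    intro p
    induction p using MvPolynomial.induction_on with
    | C q =>
      rw [MvPolynomial.aeval_C]
      exact hQ q
    | add p q hp hq =>
      rw [map_add]
      exact hp.add hq
    | mul_X p i hp =>
      rw [map_mul, MvPolynomial.aeval_X]
      exact hp.mul (hX i)
  have : Algebra.IsAlgebraic (MvPolynomial (Fin r) ℤ)
      (IntermediateField.adjoin ℚ (Set.range t)) := by
    refine ⟨fun x => ?_⟩
    obtain ⟨p, q, hpq⟩ := (IntermediateField.mem_adjoin_range_iff ℚ t (x : ℂ)).1 x.2
    have h1 : x = MvPolynomial.aeval tK p * (MvPolynomial.aeval tK q)⁻¹ := by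
      apply Subtype.ext
      rw [hpq, div_eq_mul_inv]
      have h2 : ∀ s : MvPolynomial (Fin r) ℚ, ((MvPolynomial.aeval tK s :
          IntermediateField.adjoin ℚ (Set.range t)) : ℂ) = MvPolynomial.aeval t s := by
        intro s
        have h3 := MvPolynomial.map_aeval tK (algebraMap
          (IntermediateField.adjoin ℚ (Set.range t)) ℂ) s
        rw [MvPolynomial.aeval_def]
        exact h3
      push_cast
      rw [h2, h2]
    rw [h1]
    exact (hP p).mul (hP q).inv
  have halg : ∀ i, IsAlgebraic (MvPolynomial (Fin r) ℤ) (a i) := by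
    intro i
    have h1 : IsAlgebraic (IntermediateField.adjoin ℚ (Set.range t)) (⟨a i, haL i⟩ : L) :=
      Algebra.IsAlgebraic.isAlgebraic _
    have h2 : IsAlgebraic (IntermediateField.adjoin ℚ (Set.range t)) (a i) :=
      h1.algebraMap (A := ℂ)
    exact h2.restrictScalars (MvPolynomial (Fin r) ℤ)
  choose P hP0 hPa using halg
  refine ⟨∏ i, (P i).leadingCoeff, Finset.prod_ne_zero_iff.2 fun i _ =>
    leadingCoeff_ne_zero.2 (hP0 i), fun i => ⟨P i, Finset.dvd_prod_of_mem _ (Finset.mem_univ i),
      ?_⟩⟩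
  exact hPa i

/-- a common denominator for a complex point, relative version -/
theorem exists_denominator_rel {n m : ℕ} (c : Fin n → ℂ) (hc : AlgebraicIndependent ℚ c)
    (a : Fin m → ℂ) :
    ∃ (r : ℕ) (t : Fin r → ℂ), AlgebraicIndependent ℚ (Fin.append c t) ∧
      (∃ L : IntermediateField (IntermediateField.adjoin ℚ (Set.range (Fin.append c t))) ℂ,
        FiniteDimensional (IntermediateField.adjoin ℚ (Set.range (Fin.append c t))) L ∧
          ∀ i, a i ∈ L) ∧
      ∃ D : MvPolynomial (Fin (n + r)) ℤ, D ≠ 0 ∧ ∀ i, ∃ P : (MvPolynomial (Fin (n + r)) ℤ)[X],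
        P.leadingCoeff ∣ D ∧
        P.eval₂ (MvPolynomial.aeval (Fin.append c t) :
          MvPolynomial (Fin (n + r)) ℤ →ₐ[ℤ] ℂ).toRingHom (a i) = 0 := by
  obtain ⟨r, t, ht, L, hL, haL⟩ := specC_tower c hc a
  exact ⟨r, t, ht, ⟨L, hL, haL⟩, specC_den (Fin.append c t) a L hL haL⟩

end Pool.Agent.Helper38.SP2
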