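import Pool.Agent.Helper38.SP2.Nice
import Pool.Agent.Helper38.SP2.SpecB
import Pool.Agent.Helper38.SP2.SpecC
import Pool.Agent.Helper38.SP.Transfer
import Pool.Agent.Helper38.SP.Count

/-!
# Project SP, second part: independent coefficients are nice

BLUEPRINT. Let `n = k (d + 1)`, `c' : Fin n → ℂ` the family `c` reindexed by
`finProdFinEquiv : Fin k × Fin (d + 1) ≃ Fin (k * (d + 1))`. Given `a`, take `r, t, L, D` from
`exists_denominator_rel c' a`. By `exists_good d` there are a prime `p₀` (large, `d ∣ p₀ - 1`,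
e.g. `Nat.exists_prime_gt_modEq_one`) and coefficients `b : Fin (d + 1) → ZMod p₀` with
`Good p₀ d (pol b)` (the number of such `b` is `≥ κ p₀^(d+1) > 0`). Let `b' : Fin (d+1) → ℤ` be a
lift. The polynomial `D` composed with `X_q ↦ b'_q + p₀ X_q` (`q` one of the first `n` indices),
`X_q ↦ X_q` (the last `r`) is nonzero (an affine change of variables, injective on polynomials over
`ℤ`; see `dvrPt_affine` in `SP/DvrPt.lean` for such an argument over `ℚ`), so it has an integer
point with nonzero value (`MvPolynomial.funext`). This gives `c₀ : Fin k → Fin (d+1) → ℤ`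
congruent to `b` modulo `p₀` (so good at `p₀`) and `t₀ : Fin (n + r) → ℤ` with first part `c₀` and
`eval t₀ D ≠ 0`. `infinite_good` gives infinitely many primes `p` at which `c₀` is good; take one
not dividing `eval t₀ D` and apply `exists_dvr_spec`.
-/

set_option autoImplicit false

open Polynomial Finset

namespace Pool.Agent.Helper38.SP2

open Pool.Agent.Helper38.SP

/-- the integers in a residue class form an infinite set -/
private theorem gen_class_infinite (p : ℕ) [Fact p.Prime] (b : ZMod p) :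
    {z : ℤ | (z : ZMod p) = b}.Infinite := by
  have hp : p.Prime := Fact.out
  refine Set.infinite_of_injective_forall_mem (f := fun m : ℕ => (b.val : ℤ) + (p : ℤ) * m) ?_ ?_
  · intro m m' h
    have h1 : (p : ℤ) * m = (p : ℤ) * m' := add_left_cancel h
    have h2 : (p : ℤ) ≠ 0 := by exact_mod_cast hp.ne_zero
    exact_mod_cast mul_left_cancel₀ h2 h1
  · intro m
    show (((b.val : ℤ) + (p : ℤ) * m : ℤ) : ZMod p) = b
    push_cast
    rw [ZMod.natCast_zmod_val, ZMod.natCast_self, zero_mul, add_zero]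

/-- independent coefficients are nice -/
theorem nice_of_independent {k d : ℕ} (hd : 2 ≤ d) (c : Fin k → Fin (d + 1) → ℂ)
    (hc : AlgebraicIndependent ℚ (fun q : Fin k × Fin (d + 1) => c q.1 q.2)) : Nice c := by
  classical
  intro m a
  obtain ⟨c', hc'⟩ : ∃ c' : Fin (k * (d + 1)) → ℂ, c' = fun q =>
      c (finProdFinEquiv.symm q).1 (finProdFinEquiv.symm q).2 := ⟨_, rfl⟩
  have hci : AlgebraicIndependent ℚ c' := by
    rw [hc']
    exact hc.comp (fun q : Fin (k * (d + 1)) => finProdFinEquiv.symm q)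
      finProdFinEquiv.symm.injective
  obtain ⟨r, t, ht, ⟨L, hL, haL⟩, D, hD0, hD⟩ := exists_denominator_rel c' hci a
  -- a good polynomial modulo some prime
  obtain ⟨κ, hκ, P₀, hP₀⟩ := exists_good d hd
  obtain ⟨p₀, hp₀, hgt, hmod⟩ := Nat.exists_prime_gt_modEq_one (k := d) P₀ (by omega)
  have : Fact p₀.Prime := ⟨hp₀⟩
  have hdvd : d ∣ p₀ - 1 := (Nat.modEq_iff_dvd' hp₀.one_lt.le).1 hmod.symm
  have h1 := hP₀ p₀ hgt.le hdvd
  have h2 : (0 : ℝ) < κ * (p₀ : ℝ) ^ (d + 1) := by
    have : (0 : ℝ) < p₀ := by exact_mod_cast hp₀.pos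
    positivity
  have h3 : 0 < {c : Fin (d + 1) → ZMod p₀ | Good p₀ d (pol c)}.ncard := by
    exact_mod_cast lt_of_lt_of_le h2 h1
  obtain ⟨b, hb⟩ := Set.nonempty_of_ncard_ne_zero h3.ne'
  -- the integer point
  obtain ⟨s, hs⟩ : ∃ s : Fin (k * (d + 1) + r) → Set ℤ,
      s = Fin.append (fun q => {z : ℤ | (z : ZMod p₀) = b (finProdFinEquiv.symm q).2})
        (fun _ => Set.univ) := ⟨_, rfl⟩
  have hsinf : ∀ i, (s i).Infinite := by
    intro i
    rw [hs]
    refine Fin.addCases (fun q => ?_) (fun q => ?_) i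
    · rw [Fin.append_left]
      exact gen_class_infinite p₀ _
    · rw [Fin.append_right]
      exact Set.infinite_univ
  obtain ⟨t₀, ht₀, hne⟩ : ∃ t₀ ∈ Set.pi Set.univ s, MvPolynomial.eval t₀ D ≠ 0 := by
    by_contra hcon
    push Not at hcon
    apply hD0
    refine MvPolynomial.funext_set s hsinf (fun x hx => ?_)
    rw [hcon x hx, map_zero]
  obtain ⟨c₀, hc₀⟩ : ∃ c₀ : Fin k → Fin (d + 1) → ℤ,
      c₀ = fun i l => t₀ (Fin.castAdd r (finProdFinEquiv (i, l))) := ⟨_, rfl⟩
  have hcb : ∀ i l, ((c₀ i l : ℤ) : ZMod p₀) = b l := by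
    intro i l
    have h4 := ht₀ (Fin.castAdd r (finProdFinEquiv (i, l))) (Set.mem_univ _)
    rw [hs, Fin.append_left, Equiv.symm_apply_apply] at h4
    rw [hc₀]
    exact h4
  have hgood : ∀ i, Good p₀ d ((pol (c₀ i)).map (Int.castRingHom (ZMod p₀))) := by
    intro i
    rw [map_pol]
    have h5 : (fun l => (Int.castRingHom (ZMod p₀)) (c₀ i l)) = b := by
      funext l
      exact hcb i l
    rw [h5]
    exact hb
  -- infinitely many primes
  have hinf := infinite_good k d hd (fun i => pol (c₀ i)) (fun i => pol_natDegree_le _) p₀ hp₀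
    hgood
  obtain ⟨p, ⟨hp, hpg⟩, hpgt⟩ := hinf.exists_gt (MvPolynomial.eval t₀ D).natAbs
  have : Fact p.Prime := ⟨hp⟩
  have hnd : ¬ (p : ℤ) ∣ MvPolynomial.eval t₀ D := by
    intro hdv
    have h6 : p ∣ (MvPolynomial.eval t₀ D).natAbs := by
      rw [← Int.natCast_dvd]
      exact hdv
    have h7 := Nat.le_of_dvd (Int.natAbs_pos.2 hne) h6
    omega
  obtain ⟨R, i1, i2, i3, i4, j, hfin, hpR, hj, ha, γ, hγ, hγ'⟩ :=
    exists_dvr_spec (Fin.append c' t) ht a L hL haL D hD t₀ p hnd
  refine ⟨p, ⟨hp⟩, R, i1, i2, i3, i4, j, hfin, hpR, hj, ha,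
    fun i l => γ (Fin.castAdd r (finProdFinEquiv (i, l))), c₀, ?_, ?_, ?_⟩
  · intro i l
    rw [hγ, Fin.append_left, hc']
    show c (finProdFinEquiv.symm (finProdFinEquiv (i, l))).1
      (finProdFinEquiv.symm (finProdFinEquiv (i, l))).2 = c i l
    rw [Equiv.symm_apply_apply]
  · intro i l
    rw [hc₀]
    exact hγ' _
  · intro i
    have h8 := hpg i
    rw [map_pol] at h8
    exact h8

end Pool.Agent.Helper38.SP2
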