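import Pool.Agent.Helper38.SP2.Nice
import Pool.Agent.Helper38.SP.Transfer
import Pool.Agent.Helper38.SP.DvrFin

/-!
# Project SP, second part: integral coefficients good at one prime are nice
-/

set_option autoImplicit false

open Polynomial Finset

namespace Pool.Agent.Helper38.SP2

open Pool.Agent.Helper38.SP

/-- integral coefficients good at one prime are nice -/
theorem nice_of_good {k d : ℕ} (hd : 2 ≤ d) (c : Fin k → Fin (d + 1) → ℤ) (p₀ : ℕ)
    (hp₀ : p₀.Prime) (h : ∀ i, Good p₀ d (pol (fun l => (c i l : ZMod p₀)))) :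
    Nice (fun i l => (c i l : ℂ)) := by
  have hmap : ∀ (p : ℕ) (i : Fin k), (pol (c i)).map (Int.castRingHom (ZMod p))
      = pol (fun j => (c i j : ZMod p)) := by
    intro p i
    rw [map_pol]
    rfl
  have hinf := infinite_good k d hd (fun i => pol (c i)) (fun i => pol_natDegree_le _) p₀ hp₀
    (fun i => by rw [hmap]; exact h i)
  simp only [hmap] at hinf
  intro m a
  obtain ⟨E, hE, hdvr⟩ := exists_dvr_point a
  obtain ⟨p, hp, hpE⟩ := hinf.exists_notMem_finite hE
  obtain ⟨R, i1, i2, i3, i4, j, hfin, hpR, hj, ha⟩ := hdvr p hp.1 hpE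
  refine ⟨p, ⟨hp.1⟩, R, i1, i2, i3, i4, j, hfin, hpR, hj, ha, fun i l => (c i l : R), c,
    fun i l => map_intCast j _, fun i l => ?_, hp.2⟩
  rw [sub_self]
  exact Ideal.zero_mem _

end Pool.Agent.Helper38.SP2
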