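import Pool.Agent.Helper38.SP2.SymForm

/-!
# Project SP, second part: Dynamical Mordell-Lang for the symmetric products
-/

set_option autoImplicit false

open Polynomial Finset

namespace Pool.Agent.Helper38.SP2

open Pool.Agent.Helper38.SP

theorem lift1_ne_zero {d : ℕ} (hd : 2 ≤ d) (c : Fin (d + 1) → ℂ) (hc : c (Fin.last d) ≠ 0)
    (v : Fin 2 → ℂ) (hv : v ≠ 0) : lift1 c v ≠ 0 := by
  intro h
  have h1 : v 1 ^ d = 0 := by
    have := congrFun h 1
    simpa [lift1] using this
  have h2 : v 1 = 0 := pow_eq_zero_iff (by omega) |>.1 h1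
  have h3 : v = ![v 0, 0] := by
    funext i
    fin_cases i
    · rfl
    · exact h2
  have h4 : v 0 ≠ 0 := by
    intro h0
    apply hv
    rw [h3, h0]
    funext i
    fin_cases i <;> rfl
  rw [h3, lift1_infinity hd] at h
  have h5 := congrFun h 0
  simp only [Matrix.cons_val_zero, Pi.zero_apply, mul_eq_zero] at h5
  rcases h5 with h5 | h5
  · exact hc h5
  · exact h4 (pow_eq_zero_iff (by omega) |>.1 h5)

/-- the polynomials giving `symPi` -/
noncomputable def symP (N : ℕ) (l : Fin (N + 1)) : MvPolynomial (Fin N × Fin 2) ℂ :=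
  (∏ i : Fin N, (C (MvPolynomial.X (i, 1)) * X - C (MvPolynomial.X (i, 0))) :
    (MvPolynomial (Fin N × Fin 2) ℂ)[X]).coeff l

theorem eval_symP {N : ℕ} (w : Fin N → Fin 2 → ℂ) (l : Fin (N + 1)) :
    MvPolynomial.eval (fun q : Fin N × Fin 2 => w q.1 q.2) (symP N l) = symPi w l := by
  rw [symP, symPi, ← coeff_map, Polynomial.map_prod]
  congr 1
  refine Finset.prod_congr rfl fun i _ => ?_
  rw [Polynomial.map_sub, Polynomial.map_mul, map_C, map_C, map_X, MvPolynomial.eval_X,
    MvPolynomial.eval_X]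

theorem symPi_smul {N : ℕ} (t : Fin N → ℂ) (w : Fin N → Fin 2 → ℂ) (l : Fin (N + 1)) :
    symPi (fun i => t i • w i) l = (∏ i, t i) * symPi w l := by
  rw [symPi, symPi, ← coeff_C_mul]
  congr 1
  have h1 : (C (∏ i, t i) : ℂ[X]) = ∏ i, C (t i) := by rw [map_prod]
  rw [h1, ← Finset.prod_mul_distrib]
  refine Finset.prod_congr rfl fun i _ => ?_
  simp only [Pi.smul_apply, smul_eq_mul, C_mul]
  ring

theorem symPi_ne_zero {N : ℕ} (v : Fin N → Fin 2 → ℂ) (hv : ∀ i, v i ≠ 0) : symPi v ≠ 0 := by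
  intro h
  have h1 : (∏ i, (C (v i 1) * X - C (v i 0)) : ℂ[X]) = 0 := by
    have h2 := natDegree_prod_lin_le (univ : Finset (Fin N)) (fun i => v i 1) (fun i => v i 0)
    rw [Finset.card_univ, Fintype.card_fin] at h2
    rw [← pol_of_coeff _ h2, pol]
    apply Finset.sum_eq_zero
    intro l _
    have h3 := congrFun h l
    rw [symPi] at h3
    rw [h3, Pi.zero_apply, C_0, zero_mul]
  obtain ⟨i, _, hi⟩ := Finset.prod_eq_zero_iff.1 h1
  apply hv i
  have h2 := congrArg (fun q : ℂ[X] => q.coeff 1) hi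
  have h3 := congrArg (fun q : ℂ[X] => q.coeff 0) hi
  simp at h2 h3
  funext l
  fin_cases l
  · exact h3
  · exact h2

/-- every nonzero binary form is a product of linear forms -/
theorem symPi_surj {N : ℕ} (a : Fin (N + 1) → ℂ) (ha : a ≠ 0) :
    ∃ v : Fin N → Fin 2 → ℂ, (∀ i, v i ≠ 0) ∧ ∃ t : ℂ, t ≠ 0 ∧ a = t • symPi v := by
  classical
  have hq0 : pol a ≠ 0 := by
    intro h
    apply ha
    funext l
    rw [← pol_coeff a l, h, coeff_zero, Pi.zero_apply]
  have hdeg := pol_natDegree_le a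
  have hsplit : (pol a).Splits := IsAlgClosed.splits _
  have hcard : (pol a).roots.card = (pol a).natDegree := hsplit.natDegree_eq_card_roots.symm
  set L : List ℂ := (pol a).roots.toList with hL
  have hLlen : L.length = (pol a).natDegree := by
    rw [hL, Multiset.length_toList, hcard]
  set n := (pol a).natDegree with hn
  refine ⟨fun i => if h : (i : ℕ) < n then ![L.get ⟨i, by omega⟩, 1] else ![-1, 0], fun i => ?_,
    (pol a).leadingCoeff, leadingCoeff_ne_zero.2 hq0, ?_⟩
  · by_cases h : (i : ℕ) < n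
    · simp only [dif_pos h]
      intro h0
      have := congrFun h0 1
      simp at this
    · simp only [dif_neg h]
      intro h0
      have := congrFun h0 0
      simp at this
  · have hprod : (∏ i : Fin N, (C ((if h : (i : ℕ) < n then ![L.get ⟨i, by omega⟩, 1]
        else ![-1, 0] : Fin 2 → ℂ) 1) * X - C ((if h : (i : ℕ) < n then ![L.get ⟨i, by omega⟩, 1]
        else ![-1, 0] : Fin 2 → ℂ) 0)) : ℂ[X]) = ((pol a).roots.map fun r => X - C r).prod := by
      have h1 : ((pol a).roots.map fun r => X - C r).prod = (L.map fun r => X - C r).prod := by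
        rw [← Multiset.prod_coe, ← Multiset.map_coe, hL, Multiset.coe_toList]
      rw [h1]
      have h2 : ∀ i : Fin N, (C ((if h : (i : ℕ) < n then ![L.get ⟨i, by omega⟩, 1]
        else ![-1, 0] : Fin 2 → ℂ) 1) * X - C ((if h : (i : ℕ) < n then ![L.get ⟨i, by omega⟩, 1]
        else ![-1, 0] : Fin 2 → ℂ) 0) : ℂ[X])
          = (fun m : ℕ => if h : m < n then (X - C (L.get ⟨m, by omega⟩) : ℂ[X]) else 1) i := by
        intro i
        by_cases h : (i : ℕ) < n
        · simp only [dif_pos h, Matrix.cons_val_one, Matrix.cons_val_zero, C_1, one_mul]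
        · simp only [dif_neg h, Matrix.cons_val_one, Matrix.cons_val_zero, C_0, zero_mul, zero_sub,
            C_neg, C_1, neg_neg]
      rw [Finset.prod_congr rfl fun i _ => h2 i, Fin.prod_univ_eq_prod_range
        (fun m : ℕ => if h : m < n then (X - C (L.get ⟨m, by omega⟩) : ℂ[X]) else 1) N]
      rw [← Finset.prod_subset (Finset.range_subset_range.2 hdeg)]
      · rw [← Fin.prod_univ_eq_prod_range
          (fun m : ℕ => if h : m < n then (X - C (L.get ⟨m, by omega⟩) : ℂ[X]) else 1) n]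
        rw [← List.prod_ofFn]
        congr 1
        apply List.ext_get
        · simp [hLlen]
        · intro m hm1 hm2
          have hm : m < n := by simpa using hm1
          simp [hm]
      · intro m _ hm
        rw [mem_range] at hm
        simp only [dif_neg hm]
    funext l
    rw [Pi.smul_apply, smul_eq_mul, symPi, hprod, ← coeff_C_mul]
    have h3 := hsplit.eq_prod_roots
    rw [← h3, pol_coeff]

/-- iteration of a semiconjugacy -/
theorem symF_iterate {N d : ℕ} (c : Fin (d + 1) → ℂ)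
    (a : Fin (N + 1) → ℂ) (v : Fin N → Fin 2 → ℂ)
    (t : ℂ) (ht : t ≠ 0) (hav : a = t • symPi v) (n : ℕ) :
    ∃ s : ℂ, s ≠ 0 ∧ (fun (x : Fin (N + 1) → ℂ) (i : Fin (N + 1)) =>
      MvPolynomial.eval x (symF N c i))^[n] a
        = s • symPi ((lift (fun _ : Fin N => c))^[n] v) := by
  induction n with
  | zero => exact ⟨t, ht, hav⟩
  | succ n ih =>
    obtain ⟨s, hs, h⟩ := ih
    refine ⟨s ^ d, pow_ne_zero _ hs, ?_⟩
    rw [Function.iterate_succ_apply', Function.iterate_succ_apply', h]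
    funext l
    change MvPolynomial.eval (s • symPi _) (symF N c l) = _
    rw [Pool.Agent.Helper38.Dml.eval_smul_of_homog (symF_homog c l), symF_symPi]
    rfl

theorem symF_no_common_zero {N d : ℕ} (hd : 2 ≤ d) (c : Fin (d + 1) → ℂ)
    (hc : c (Fin.last d) ≠ 0) (x : Fin (N + 1) → ℂ)
    (hx : ∀ i, MvPolynomial.eval x (symF N c i) = 0) : x = 0 := by
  by_contra hx0
  obtain ⟨v, hv, t, ht, rfl⟩ := symPi_surj x hx0
  apply symPi_ne_zero (fun i => lift1 c (v i)) (fun i => lift1_ne_zero hd c hc (v i) (hv i))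
  funext l
  have h := hx l
  rw [Pool.Agent.Helper38.Dml.eval_smul_of_homog (symF_homog c l), symF_symPi, mul_eq_zero] at h
  exact h.resolve_left (pow_ne_zero _ ht)

/-- **Symmetric products.** -/
theorem dml_sym {N d : ℕ} (hd : 2 ≤ d) (c : Fin (d + 1) → ℂ) (hc : Nice (fun _ : Fin N => c))
    (a : Fin (N + 1) → ℂ) (ha : a ≠ 0)
    (S : Set (MvPolynomial (Fin (N + 1)) ℂ)) (hS : ∀ g ∈ S, ∃ e : ℕ, g.IsHomogeneous e) :
    ∃ T : Finset (ℕ × ℕ), {n : ℕ | ∀ g ∈ S, MvPolynomial.eval
        ((fun (x : Fin (N + 1) → ℂ) (i : Fin (N + 1)) =>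
          MvPolynomial.eval x (symF N c i))^[n] a) g = 0}
      = {n : ℕ | ∃ q ∈ T, ∃ m : ℕ, n = q.1 * m + q.2} := by
  obtain ⟨v, hv, t, ht, hav⟩ := symPi_surj a ha
  obtain ⟨T, hT⟩ := dml_p1n hd (fun _ : Fin N => c) hc v hv (fun _ => 1) (symP N)
    (fun t w l => by
      rw [eval_symP w l]
      have h1 := eval_symP (fun i => t i • w i) l
      rw [symPi_smul] at h1
      simp only [pow_one]
      exact h1) S hS
  refine ⟨T, ?_⟩
  rw [← hT]
  ext n
  obtain ⟨s, hs, h⟩ := symF_iterate c a v t ht hav n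
  simp only [Set.mem_ofPred_eq, h]
  have h1 : (fun l => MvPolynomial.eval (fun q : Fin N × Fin 2 =>
      (lift (fun _ : Fin N => c))^[n] v q.1 q.2) (symP N l))
      = symPi ((lift (fun _ : Fin N => c))^[n] v) := by
    funext l
    exact eval_symP _ l
  rw [h1]
  constructor
  · intro h2 g hg
    obtain ⟨e, he⟩ := hS g hg
    have h3 := h2 g hg
    rw [Pool.Agent.Helper38.Dml.eval_smul_of_homog he] at h3
    exact (mul_eq_zero.1 h3).resolve_left (pow_ne_zero _ hs)
  · intro h2 g hg
    obtain ⟨e, he⟩ := hS g hg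
    rw [Pool.Agent.Helper38.Dml.eval_smul_of_homog he, h2 g hg, mul_zero]

end Pool.Agent.Helper38.SP2
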