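import Pool.Agent.Helper38.SP2.Proj
import Pool.Agent.Helper38.SP2.SymFull
import Pool.Agent.Helper38.SP2.Integral
import Pool.Agent.Helper38.SP2.Generic
import Pool.Agent.Helper38.SP.Dens
import Pool.Agent.Helper38.SP.Explicit

/-!
# Project SP, second part: the main theorems
-/

set_option autoImplicit false

open Polynomial Finset

namespace Pool.Agent.Helper38.SP2

open Pool.Agent.Helper38.SP

/-- `F` has no nontrivial common zero and the Dynamical Mordell-Lang property in full -/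
def Full {m : ℕ} (F : Fin m → MvPolynomial (Fin m) ℂ) : Prop :=
  (∀ x : Fin m → ℂ, (∀ i, MvPolynomial.eval x (F i) = 0) → x = 0) ∧
    ∀ a : Fin m → ℂ, a ≠ 0 → ∀ S : Set (MvPolynomial (Fin m) ℂ),
      (∀ g ∈ S, ∃ e : ℕ, g.IsHomogeneous e) →
        ∃ T : Finset (ℕ × ℕ),
          {n : ℕ | ∀ g ∈ S, MvPolynomial.eval
            ((fun (x : Fin m → ℂ) (i : Fin m) => MvPolynomial.eval x (F i))^[n] a) g = 0}
            = {n : ℕ | ∃ q ∈ T, ∃ k : ℕ, n = q.1 * k + q.2}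

theorem full_split {N d : ℕ} (hd : 2 ≤ d) (c : Fin N → Fin (d + 1) → ℂ) (h : Nice c) :
    Full (Phi c) := by
  have hc : ∀ i, c i (Fin.last d) ≠ 0 := fun i => h.coeff_ne_zero hd i
  refine ⟨fun x hx => no_common_zero hd c hc x hx, fun a _ S hS => ?_⟩
  by_cases ha : a 0 = 0
  · exact dml_infinity hd c hc a ha S
  · exact dml_finite c h a ha S hS

theorem full_sym (N : ℕ) {d : ℕ} (hd : 2 ≤ d) (c : Fin (d + 1) → ℂ)
    (h : Nice (fun _ : Fin 1 => c)) : Full (symF N c) :=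
  ⟨fun x hx => symF_no_common_zero hd c (h.coeff_ne_zero hd 0) x hx, fun a ha S hS =>
    dml_sym hd c (h.comp (fun _ : Fin N => (0 : Fin 1))) a ha S hS⟩

/-- split maps and symmetric products of a tuple have the property -/
def All {k d : ℕ} (c : Fin k → Fin (d + 1) → ℂ) : Prop :=
  (∀ (N : ℕ) (s : Fin N → Fin k), Full (Phi (fun i => c (s i)))) ∧
    ∀ (N : ℕ) (i : Fin k), ∃ F : Fin (N + 1) → MvPolynomial (Fin (N + 1)) ℂ,
      (∀ l, (F l).IsHomogeneous d) ∧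
      (∀ (v : Fin N → Fin 2 → ℂ) (l : Fin (N + 1)),
        MvPolynomial.eval (symPi v) (F l) = symPi (fun m => lift1 (c i) (v m)) l) ∧ Full F

theorem all_of_nice {k d : ℕ} (hd : 2 ≤ d) (c : Fin k → Fin (d + 1) → ℂ) (h : Nice c) : All c :=
  ⟨fun _ s => full_split hd _ (h.comp s), fun N i => ⟨symF N (c i), symF_homog (c i),
    fun v l => symF_symPi (c i) v l, full_sym N hd (c i) (h.comp (fun _ : Fin 1 => i))⟩⟩

/-- **(A)** the criterion at one prime -/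
theorem all_of_good {k d : ℕ} (hd : 2 ≤ d) (c : Fin k → Fin (d + 1) → ℤ) (p₀ : ℕ)
    (hp₀ : p₀.Prime) (h : ∀ i, Good p₀ d (pol (fun j => (c i j : ZMod p₀)))) :
    All (fun i j => (c i j : ℂ)) :=
  all_of_nice hd _ (nice_of_good hd c p₀ hp₀ h)

/-- **(B)** almost all tuples of integral polynomials -/
theorem almost_all (k d : ℕ) (hd : 2 ≤ d) (ε : ℝ) (hε : 0 < ε) :
    ∃ H₀ : ℕ, ∀ H : ℕ, H₀ ≤ H →
      ({c : Fin k → Fin (d + 1) → ℤ | (∀ i j, |c i j| ≤ (H : ℤ)) ∧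
          ¬ All (fun i j => (c i j : ℂ))}.ncard : ℝ)
        ≤ ε * ({c : Fin k → Fin (d + 1) → ℤ | ∀ i j, |c i j| ≤ (H : ℤ)}.ncard : ℝ) := by
  obtain ⟨H₀, hH₀⟩ := density k d hd ε hε
  refine ⟨H₀, fun H hH => le_trans ?_ (hH₀ H hH)⟩
  have hfin : {c : Fin k → Fin (d + 1) → ℤ | ∀ i j, |c i j| ≤ (H : ℤ)}.Finite := by
    refine (Set.Finite.pi' (ι := Fin k) (κ := fun _ => Fin (d + 1) → ℤ)
      (t := fun _ => {v | ∀ j, |v j| ≤ (H : ℤ)}) fun i => ?_).subset fun c hc i => hc i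
    refine (Set.Finite.pi' (ι := Fin (d + 1)) (κ := fun _ => ℤ)
      (t := fun _ => Set.Icc (-(H : ℤ)) H) fun j => Set.finite_Icc _ _).subset fun v hv j => ?_
    exact Set.mem_Icc.2 (abs_le.1 (hv j))
  have h1 := Set.ncard_le_ncard (s := {c : Fin k → Fin (d + 1) → ℤ | (∀ i j, |c i j| ≤ (H : ℤ)) ∧
          ¬ All (fun i j => (c i j : ℂ))})
    (t := {c : Fin k → Fin (d + 1) → ℤ | (∀ i j, |c i j| ≤ (H : ℤ)) ∧
          ¬ ∃ p : ℕ, p.Prime ∧ ∀ i, Good p d (pol (fun j => (c i j : ZMod p)))})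
    (fun c hc => ⟨hc.1, fun hg => hc.2 (by
      obtain ⟨p, hp, hg⟩ := hg
      exact all_of_good hd c p hp hg)⟩)
    (hfin.subset fun c hc => hc.1)
  exact_mod_cast h1

/-- **(C)** independent complex coefficients -/
theorem all_of_independent {k d : ℕ} (hd : 2 ≤ d) (c : Fin k → Fin (d + 1) → ℂ)
    (hc : AlgebraicIndependent ℚ (fun q : Fin k × Fin (d + 1) => c q.1 q.2)) : All c :=
  all_of_nice hd c (nice_of_independent hd c hc)

end Pool.Agent.Helper38.SP2
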