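import Pool.Agent.Helper38.SP.Defs

/-!
# Project SP, second part: complex coefficients

`Nice c`: whatever finitely many complex numbers are given, they lie in a discrete valuation ring
over some prime `p` which also contains the coefficients `c`, and `c` reduces to a tuple which is
good modulo `p`.
-/

set_option autoImplicit false

open Polynomial Finset

namespace Pool.Agent.Helper38.SP2

open Pool.Agent.Helper38.SP

/-- see the header -/
def Nice {k d : ℕ} (c : Fin k → Fin (d + 1) → ℂ) : Prop :=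
  ∀ (m : ℕ) (a : Fin m → ℂ), ∃ (p : ℕ) (_ : Fact p.Prime) (R : Type) (_ : CommRing R)
    (_ : IsDomain R) (_ : CharZero R) (_ : IsDiscreteValuationRing R) (j : R →+* ℂ),
    Finite (IsLocalRing.ResidueField R) ∧ (p : R) ∈ IsLocalRing.maximalIdeal R ∧
    Function.Injective j ∧ (∀ i, a i ∈ Set.range j) ∧
    ∃ (γ : Fin k → Fin (d + 1) → R) (c₀ : Fin k → Fin (d + 1) → ℤ),
      (∀ i l, j (γ i l) = c i l) ∧
      (∀ i l, γ i l - (c₀ i l : R) ∈ IsLocalRing.maximalIdeal R) ∧
      ∀ i, Good p d (pol (fun l => (c₀ i l : ZMod p)))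

theorem Nice.comp {k d N : ℕ} {c : Fin k → Fin (d + 1) → ℂ} (h : Nice c) (s : Fin N → Fin k) :
    Nice (fun i => c (s i)) := by
  intro m a
  obtain ⟨p, hp, R, i1, i2, i3, i4, j, hfin, hpR, hj, ha, γ, c₀, h1, h2, h3⟩ := h m a
  exact ⟨p, hp, R, i1, i2, i3, i4, j, hfin, hpR, hj, ha, fun i => γ (s i), fun i => c₀ (s i),
    fun i l => h1 (s i) l, fun i l => h2 (s i) l, fun i => h3 (s i)⟩

/-- the leading coefficients of a nice tuple are nonzero -/
theorem Nice.coeff_ne_zero {k d : ℕ} (hd : 2 ≤ d) {c : Fin k → Fin (d + 1) → ℂ} (h : Nice c)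
    (i : Fin k) : c i (Fin.last d) ≠ 0 := by
  obtain ⟨p, hp, R, i1, i2, i3, i4, j, hfin, hpR, hj, ha, γ, c₀, h1, h2, h3⟩ := h 0 Fin.elim0
  intro h0
  have h4 : γ i (Fin.last d) = 0 := hj (by rw [h1, h0, map_zero])
  have h5 := h2 i (Fin.last d)
  rw [h4, zero_sub, neg_mem_iff] at h5
  -- so `c₀` vanishes modulo `p`
  have h6 : (c₀ i (Fin.last d) : ZMod p) = 0 := by
    rw [ZMod.intCast_zmod_eq_zero_iff_dvd]
    by_contra hnd
    obtain ⟨u, v, huv⟩ := (Nat.prime_iff_prime_int.1 hp.out).coprime_iff_not_dvd.2 hnd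
    have h7 : ((u * p + v * c₀ i (Fin.last d) : ℤ) : R) ∈ IsLocalRing.maximalIdeal R := by
      push_cast
      exact Ideal.add_mem _ (Ideal.mul_mem_left _ _ hpR) (Ideal.mul_mem_left _ _ h5)
    rw [huv, Int.cast_one] at h7
    exact (Ideal.ne_top_iff_one _).1 (IsLocalRing.maximalIdeal.isMaximal R).ne_top h7
  have h7 := h3 i
  have h8 : (pol (fun l => (c₀ i l : ZMod p))).coeff d = 0 := by
    have h9 := pol_coeff (fun l => (c₀ i l : ZMod p)) (Fin.last d)
    rw [Fin.val_last] at h9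
    rw [h9, h6]
  have h9 : (pol (fun l => (c₀ i l : ZMod p))).leadingCoeff = 0 := by
    rw [leadingCoeff, h7.1, h8]
  rw [leadingCoeff_eq_zero] at h9
  have h10 := h7.1
  rw [h9, natDegree_zero] at h10
  omega

end Pool.Agent.Helper38.SP2
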