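import Pool.Agent.Helper38.SP.Tail

/-!
# Project SP, second part: unit derivatives along tails, general coefficients
-/

set_option autoImplicit false

open Polynomial

namespace Pool.Agent.Helper38.SP2

open Pool.Agent.Helper38.SP

/-- unit derivatives along tails of orbits -/
theorem exists_unit_tail {N d p : ℕ} [Fact p.Prime] {R : Type} [CommRing R]
    [IsLocalRing R] [Finite (IsLocalRing.ResidueField R)]
    (hpR : (p : R) ∈ IsLocalRing.maximalIdeal R) (γ : Fin N → Fin (d + 1) → R)
    (c₀ : Fin N → Fin (d + 1) → ℤ)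
    (h2 : ∀ i l, γ i l - (c₀ i l : R) ∈ IsLocalRing.maximalIdeal R)
    (h3 : ∀ i, Good p d (pol (fun l => (c₀ i l : ZMod p)))) (x : Fin N → R) :
    ∃ n₁ : ℕ, ∀ n, n₁ ≤ n → ∀ i,
      IsUnit ((derivative (pol (γ i))).eval ((fun y => (pol (γ i)).eval y)^[n] (x i))) := by
  classical
  set k := IsLocalRing.ResidueField R with hk
  have hp0 : ((p : ℕ) : k) = 0 := by
    have h1 := (IsLocalRing.residue_eq_zero_iff (R := R) (p : R)).2 hpR
    rwa [map_natCast] at h1
  haveI : CharP k p := (CharP.charP_iff_prime_eq_zero (Fact.out : p.Prime)).2 hp0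
  let φ : ZMod p →+* k := ZMod.castHom (dvd_refl p) k
  have hmap : ∀ i, (pol (γ i)).map (IsLocalRing.residue R) =
      (pol (fun l => (c₀ i l : ZMod p))).map φ := by
    intro i
    rw [map_pol, map_pol]
    congr 1
    funext l
    have h4 := (IsLocalRing.residue_eq_zero_iff (R := R) _).2 (h2 i l)
    rw [map_sub, map_intCast, sub_eq_zero] at h4
    rw [h4, map_intCast]
  have hit : ∀ i, ∀ n : ℕ,
      IsLocalRing.residue R ((fun y => (pol (γ i)).eval y)^[n] (x i)) =
        (fun t : k => ((pol (fun l => (c₀ i l : ZMod p))).map φ).eval t)^[n]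
          (IsLocalRing.residue R (x i)) := by
    intro i n
    induction n with
    | zero => rfl
    | succ n ih =>
      rw [Function.iterate_succ_apply', Function.iterate_succ_apply', ← ih, ← hmap i]
      exact (eval_map_apply _ _).symm
  choose m hm using fun i : Fin N => exists_tail_periodic
    (fun t : k => ((pol (fun l => (c₀ i l : ZMod p))).map φ).eval t)
    (IsLocalRing.residue R (x i))
  refine ⟨Finset.univ.sup m, fun n hn i => ?_⟩
  have h4 := hm i n ((Finset.le_sup (Finset.mem_univ i)).trans hn)
  rw [← hit i n] at h4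
  have h5 := eval_derivative_ne_of_periodic (h3 i) φ _ h4
  rw [← IsLocalRing.residue_ne_zero_iff_isUnit]
  intro h6
  apply h5
  rw [← hmap i, derivative_map, eval_map_apply]
  exact h6

end Pool.Agent.Helper38.SP2
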