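import Pool.Agent.Helper38.SP2.Nice
import Pool.Agent.Helper38.SP2.Tail
import Pool.Agent.Helper38.SP.DvrFin
import Pool.Agent.Helper38.SP.Engine

/-!
# Project SP, second part: split polynomial maps of projective space
-/

set_option autoImplicit false

open Polynomial Finset

namespace Pool.Agent.Helper38.SP2

open Pool.Agent.Helper38.SP

/-- the forms `X_0^d`, `F_i = sum_j c_ij X_0^(d-j) X_i^j` -/
noncomputable def Phi {N d : ℕ} (c : Fin N → Fin (d + 1) → ℂ) :
    Fin (N + 1) → MvPolynomial (Fin (N + 1)) ℂ :=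
  Fin.cons (MvPolynomial.X 0 ^ d) (fun i => ∑ j : Fin (d + 1),
    MvPolynomial.C (c i j) * MvPolynomial.X 0 ^ (d - (j : ℕ)) *
      MvPolynomial.X i.succ ^ (j : ℕ))

/-- the map of affine space -/
noncomputable def orb {N d : ℕ} (c : Fin N → Fin (d + 1) → ℂ) (a : Fin (N + 1) → ℂ) (n : ℕ) :
    Fin (N + 1) → ℂ :=
  (fun (x : Fin (N + 1) → ℂ) (i : Fin (N + 1)) => MvPolynomial.eval x (Phi c i))^[n] a

private theorem eval_Phi_zero {N d : ℕ} (c : Fin N → Fin (d + 1) → ℂ) (x : Fin (N + 1) → ℂ) :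
    MvPolynomial.eval x (Phi c 0) = x 0 ^ d := by
  simp [Phi]

private theorem eval_Phi_succ {N d : ℕ} (c : Fin N → Fin (d + 1) → ℂ) (x : Fin (N + 1) → ℂ)
    (i : Fin N) :
    MvPolynomial.eval x (Phi c i.succ) =
      ∑ j : Fin (d + 1), c i j * x 0 ^ (d - (j : ℕ)) * x i.succ ^ (j : ℕ) := by
  simp only [Phi, Fin.cons_succ, map_sum, map_mul, map_pow, MvPolynomial.eval_C,
    MvPolynomial.eval_X]

private theorem eval_Phi_succ_zero {N d : ℕ} (c : Fin N → Fin (d + 1) → ℂ)
    (x : Fin (N + 1) → ℂ) (hx : x 0 = 0) (i : Fin N) :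
    MvPolynomial.eval x (Phi c i.succ) = c i (Fin.last d) * x i.succ ^ d := by
  rw [eval_Phi_succ, Finset.sum_eq_single (Fin.last d)]
  · simp
  · intro j _ hj
    have : d - (j : ℕ) ≠ 0 := by
      have h1 := j.2
      have h2 : (j : ℕ) ≠ d := fun h => hj (Fin.ext (by simpa using h))
      omega
    rw [hx, zero_pow this, mul_zero, zero_mul]
  · intro h
    exact absurd (Finset.mem_univ _) h

private theorem eval_Phi_succ_smul {N d : ℕ} (c : Fin N → Fin (d + 1) → ℂ)
    (l : ℂ) (y : Fin N → ℂ) (i : Fin N) :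
    MvPolynomial.eval (Fin.cons l (fun i => l * y i) : Fin (N + 1) → ℂ) (Phi c i.succ) =
      l ^ d * (pol (c i)).eval (y i) := by
  rw [eval_Phi_succ, pol_eval, Finset.mul_sum]
  refine Finset.sum_congr rfl fun j _ => ?_
  rw [Fin.cons_zero, Fin.cons_succ, mul_pow]
  have h : l ^ d = l ^ (d - (j : ℕ)) * l ^ (j : ℕ) := by
    rw [← pow_add, Nat.sub_add_cancel (Nat.lt_succ_iff.1 j.2)]
  rw [h]
  ring

private theorem orb_smul {N d : ℕ} (c : Fin N → Fin (d + 1) → ℂ)
    (l : ℂ) (y : Fin N → ℂ) (n : ℕ) :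
    orb c (Fin.cons l (fun i => l * y i) : Fin (N + 1) → ℂ) n =
      Fin.cons (l ^ d ^ n) (fun i => l ^ d ^ n *
        (fun z => (pol (c i)).eval z)^[n] (y i)) := by
  induction n with
  | zero => simp [orb]
  | succ n ih =>
    have h1 : orb c (Fin.cons l (fun i => l * y i) : Fin (N + 1) → ℂ) (n + 1) =
        fun i => MvPolynomial.eval (orb c (Fin.cons l (fun i => l * y i) : Fin (N + 1) → ℂ) n)
          (Phi c i) := by
      rw [orb, Function.iterate_succ_apply']
      rfl
    rw [h1, ih]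
    funext i
    refine Fin.cases ?_ (fun i => ?_) i
    · simp only [eval_Phi_zero, Fin.cons_zero]
      rw [← pow_mul, ← pow_succ]
    · simp only [Fin.cons_succ]
      rw [eval_Phi_succ_smul, Function.iterate_succ_apply', ← pow_mul, ← pow_succ]

private theorem orb_zero {N d : ℕ} (hd : 2 ≤ d) (c : Fin N → Fin (d + 1) → ℂ)
    (a : Fin (N + 1) → ℂ) (ha : a 0 = 0) (n : ℕ) :
    orb c a n = (Fin.cons 0 (fun i =>
      (fun z => c i (Fin.last d) * z ^ d)^[n] (a i.succ)) : Fin (N + 1) → ℂ) := by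
  induction n with
  | zero =>
    funext i
    refine Fin.cases ?_ (fun i => ?_) i
    · simpa [orb] using ha
    · simp [orb]
  | succ n ih =>
    have h1 : orb c a (n + 1) = fun i => MvPolynomial.eval (orb c a n) (Phi c i) := by
      rw [orb, Function.iterate_succ_apply']
      rfl
    rw [h1, ih]
    funext i
    refine Fin.cases ?_ (fun i => ?_) i
    · simp only [eval_Phi_zero, Fin.cons_zero]
      exact zero_pow (by omega)
    · rw [eval_Phi_succ_zero c _ (Fin.cons_zero _ _), Fin.cons_succ, Fin.cons_succ,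
        Function.iterate_succ_apply']

/-- homogeneous polynomials at multiples -/
private theorem eval_smul_hom {σ : Type*} (g : MvPolynomial σ ℂ) (e : ℕ) (hg : g.IsHomogeneous e)
    (l : ℂ) (x : σ → ℂ) :
    MvPolynomial.eval (fun i => l * x i) g = l ^ e * MvPolynomial.eval x g := by
  rw [MvPolynomial.eval_eq, MvPolynomial.eval_eq, Finset.mul_sum]
  refine Finset.sum_congr rfl fun m hm => ?_
  have h : m.degree = e := by
    rw [Finsupp.degree_eq_weight_one]
    exact hg (MvPolynomial.mem_support_iff.1 hm)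
  have h2 : ∏ i ∈ m.support, (l * x i) ^ m i = l ^ e * ∏ i ∈ m.support, x i ^ m i := by
    simp only [mul_pow]
    rw [Finset.prod_mul_distrib, Finset.prod_pow_eq_pow_sum, ← h]
    rfl
  rw [h2]
  ring

private theorem iterate_map {R : Type*} [CommRing R] (j : R →+* ℂ) (f : R[X]) (x : R) (n : ℕ) :
    j ((fun y => f.eval y)^[n] x) = (fun z => (f.map j).eval z)^[n] (j x) := by
  induction n with
  | zero => rfl
  | succ n ih =>
    rw [Function.iterate_succ_apply', Function.iterate_succ_apply', ← ih]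
    exact (eval_map_apply _ _).symm

/-- points of the affine part -/
theorem dml_finite {N d : ℕ} (c : Fin N → Fin (d + 1) → ℂ) (hc : Nice c)
    (a : Fin (N + 1) → ℂ) (ha : a 0 ≠ 0)
    (S : Set (MvPolynomial (Fin (N + 1)) ℂ)) (hS : ∀ g ∈ S, ∃ e : ℕ, g.IsHomogeneous e) :
    ∃ T : Finset (ℕ × ℕ), {n : ℕ | ∀ g ∈ S, MvPolynomial.eval (orb c a n) g = 0}
      = {n : ℕ | ∃ q ∈ T, ∃ m : ℕ, n = q.1 * m + q.2} := by
  classical
  set b : Fin N → ℂ := fun i => a i.succ / a 0 with hb
  have hab : a = (Fin.cons (a 0) (fun i => a 0 * b i) : Fin (N + 1) → ℂ) := by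
    funext i
    refine Fin.cases ?_ (fun i => ?_) i
    · simp
    · simp only [Fin.cons_succ, hb]
      field_simp
  obtain ⟨p, hp, R, _, _, _, _, j, hfin, hpR, hj, hx, γ, c₀, hγ, hγ₀, hgood⟩ := hc N b
  choose x hx using hx
  obtain ⟨n₁, hu⟩ := exists_unit_tail hpR γ c₀ hγ₀ hgood x
  have hmap : ∀ i, (pol (γ i)).map j = pol (c i) := by
    intro i
    rw [map_pol]
    congr 1
    funext l
    exact hγ i l
  obtain ⟨T, hT⟩ := dml_affine p hp.out hpR j hj
    (fun i => pol (γ i)) x n₁ hu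
    ((MvPolynomial.aeval (Fin.cons 1 (fun i => MvPolynomial.X i) :
      Fin (N + 1) → MvPolynomial (Fin N) ℂ)) '' S)
  refine ⟨T, ?_⟩
  rw [← hT]
  ext n
  simp only [Set.mem_ofPred_eq, Set.forall_mem_image]
  refine forall₂_congr fun g hg => ?_
  obtain ⟨e, he⟩ := hS g hg
  have h1 : (fun i => j ((fun y => (pol (γ i)).eval y)^[n] (x i))) =
      fun i => (fun z => (pol (c i)).eval z)^[n] (b i) := by
    funext i
    rw [iterate_map, hx, hmap]
  have h2 : ∀ y : Fin N → ℂ, MvPolynomial.eval y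
      (MvPolynomial.aeval (Fin.cons 1 (fun i => MvPolynomial.X i) :
        Fin (N + 1) → MvPolynomial (Fin N) ℂ) g) =
      MvPolynomial.eval (Fin.cons 1 y : Fin (N + 1) → ℂ) g := by
    intro y
    have h3 : (MvPolynomial.eval y).comp
        (MvPolynomial.aeval (Fin.cons 1 (fun i => MvPolynomial.X i) :
        Fin (N + 1) → MvPolynomial (Fin N) ℂ)).toRingHom =
        MvPolynomial.eval (Fin.cons 1 y : Fin (N + 1) → ℂ) := by
      refine MvPolynomial.ringHom_ext (fun r => by simp) (fun i => ?_)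
      refine Fin.cases ?_ (fun i => ?_) i
      · simp
      · simp
    exact congrArg (fun f => f g) h3
  have h4 : orb c a n = fun i => (a 0) ^ d ^ n *
      (Fin.cons 1 (fun i => (fun z => (pol (c i)).eval z)^[n] (b i)) :
        Fin (N + 1) → ℂ) i := by
    conv_lhs => rw [hab]
    rw [orb_smul]
    funext i
    refine Fin.cases ?_ (fun i => ?_) i
    · simp
    · simp
  rw [h1, h2, h4, eval_smul_hom g e he]
  have h5 : ((a 0) ^ d ^ n) ^ e ≠ 0 := pow_ne_zero _ (pow_ne_zero _ ha)
  constructor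
  · intro h
    exact (mul_eq_zero.1 h).resolve_left h5
  · intro h
    rw [h, mul_zero]

private theorem isUnit_intCast {R : Type*} [CommRing R] [IsLocalRing R] (p : ℕ) (hp : p.Prime)
    (hpR : (p : R) ∈ IsLocalRing.maximalIdeal R) (m : ℤ) (hm : ¬ (p : ℤ) ∣ m) :
    IsUnit (m : R) := by
  by_contra h
  have h1 : (m : R) ∈ IsLocalRing.maximalIdeal R := h
  have hcop : IsCoprime (p : ℤ) m := (Nat.prime_iff_prime_int.1 hp).coprime_iff_not_dvd.2 hm
  obtain ⟨u, v, huv⟩ := hcop
  have h2 : ((u * p + v * m : ℤ) : R) ∈ IsLocalRing.maximalIdeal R := by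
    push_cast
    exact Ideal.add_mem _ (Ideal.mul_mem_left _ _ hpR) (Ideal.mul_mem_left _ _ h1)
  rw [huv, Int.cast_one] at h2
  exact (Ideal.ne_top_iff_one _).1 (IsLocalRing.maximalIdeal.isMaximal R).ne_top h2

/-- points of the hyperplane at infinity -/
theorem dml_infinity {N d : ℕ} (hd : 2 ≤ d) (c : Fin N → Fin (d + 1) → ℂ)
    (hc : ∀ i, c i (Fin.last d) ≠ 0)
    (a : Fin (N + 1) → ℂ) (ha : a 0 = 0) (S : Set (MvPolynomial (Fin (N + 1)) ℂ)) :
    ∃ T : Finset (ℕ × ℕ), {n : ℕ | ∀ g ∈ S, MvPolynomial.eval (orb c a n) g = 0}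
      = {n : ℕ | ∃ q ∈ T, ∃ m : ℕ, n = q.1 * m + q.2} := by
  classical
  set cl : Fin N → ℂ := fun i => c i (Fin.last d) with hcl
  obtain ⟨E, hE, hdvr⟩ := exists_dvr_point (Fin.append (Fin.append a (fun i => (a i)⁻¹))
    (Fin.append cl (fun i => (cl i)⁻¹)))
  have hinf : ({p : ℕ | p.Prime}).Infinite := Nat.infinite_setOfPred_prime
  have hfin2 : (E ∪ (d.divisors : Set ℕ)).Finite := hE.union (Finset.finite_toSet _)
  obtain ⟨p, hp, hpE⟩ := hinf.exists_notMem_finite hfin2
  have hp' : p.Prime := hp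
  have : Fact p.Prime := ⟨hp'⟩
  have hpd : ¬ p ∣ d := fun h => hpE (Or.inr (by simpa using ⟨h, by omega⟩))
  obtain ⟨R, _, _, _, _, j, hfin, hpR, hj, hrange⟩ := hdvr p hp (fun h => hpE (Or.inl h))
  have hr1 : ∀ i, a i ∈ Set.range j := fun i => by
    have := hrange (Fin.castAdd _ (Fin.castAdd _ i))
    rwa [Fin.append_left, Fin.append_left] at this
  have hr2 : ∀ i, (a i)⁻¹ ∈ Set.range j := fun i => by
    have := hrange (Fin.castAdd _ (Fin.natAdd _ i))
    rwa [Fin.append_left, Fin.append_right] at this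
  have hr3 : ∀ i, cl i ∈ Set.range j := fun i => by
    have := hrange (Fin.natAdd _ (Fin.castAdd _ i))
    rwa [Fin.append_right, Fin.append_left] at this
  have hr4 : ∀ i, (cl i)⁻¹ ∈ Set.range j := fun i => by
    have := hrange (Fin.natAdd _ (Fin.natAdd _ i))
    rwa [Fin.append_right, Fin.append_right] at this
  choose x hx using hr1
  choose x' hx' using hr2
  choose u hu using hr3
  choose u' hu' using hr4
  have hunit : ∀ i, a i ≠ 0 → IsUnit (x i) := by
    intro i hi
    refine IsUnit.of_mul_eq_one (x' i) (hj ?_)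
    rw [map_mul, hx, hx', map_one, mul_inv_cancel₀ hi]
  have hdu : IsUnit ((d : ℤ) : R) := by
    refine isUnit_intCast p hp' hpR _ fun h => hpd ?_
    exact Int.natCast_dvd_natCast.1 h
  have hcu : ∀ i, IsUnit (u i) := by
    intro i
    refine IsUnit.of_mul_eq_one (u' i) (hj ?_)
    rw [map_mul, hu, hu', map_one, mul_inv_cancel₀ (hc i)]
  let σ : Type := {i : Fin N // a i.succ ≠ 0}
  let f : σ → R[X] := fun i => C (u i.1) * X ^ d
  have hfC : ∀ i : σ, (f i).map j = C (cl i.1) * X ^ d := by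
    intro i
    simp only [f]
    rw [Polynomial.map_mul, Polynomial.map_pow, map_C, map_X, hu]
  have hiter : ∀ (n : ℕ) (i : σ), IsUnit ((fun y => (f i).eval y)^[n] (x i.1.succ)) := by
    intro n i
    induction n with
    | zero => exact hunit _ i.2
    | succ n ih =>
      rw [Function.iterate_succ_apply']
      generalize (fun y => (f i).eval y)^[n] (x i.1.succ) = y at ih ⊢
      simp only [f, eval_mul, eval_C, eval_pow, eval_X]
      exact (hcu i.1).mul (ih.pow d)
  obtain ⟨T, hT⟩ := dml_affine (σ := σ) p hp' hpR j hj f (fun i => x i.1.succ) 0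
    (by
      intro n _ i
      have h1 := hiter n i
      generalize (fun y => (f i).eval y)^[n] (x i.1.succ) = y at h1 ⊢
      simp only [f]
      rw [derivative_C_mul, derivative_X_pow, eval_mul, eval_C, eval_mul, eval_C, eval_pow,
        eval_X]
      refine (hcu i.1).mul (IsUnit.mul ?_ (h1.pow _))
      simpa using hdu)
    ((MvPolynomial.aeval (Fin.cons 0 (fun i => if h : a i.succ ≠ 0 then
      MvPolynomial.X (⟨i, h⟩ : σ) else 0) :
      Fin (N + 1) → MvPolynomial σ ℂ)) '' S)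
  refine ⟨T, ?_⟩
  rw [← hT]
  ext n
  simp only [Set.mem_ofPred_eq, Set.forall_mem_image]
  refine forall₂_congr fun g hg => ?_
  have h1 : (fun i : σ => j ((fun y => (f i).eval y)^[n] (x i.1.succ)))
      = fun i : σ => (fun z => c i.1 (Fin.last d) * z ^ d)^[n] (a i.1.succ) := by
    funext i
    rw [iterate_map, hx, hfC]
    congr 2
    funext z
    rw [eval_mul, eval_C, eval_pow, eval_X]
  have h2 : ∀ y : σ → ℂ, MvPolynomial.eval y
      (MvPolynomial.aeval (Fin.cons 0 (fun i => if h : a i.succ ≠ 0 then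
      MvPolynomial.X (⟨i, h⟩ : σ) else 0) :
      Fin (N + 1) → MvPolynomial σ ℂ) g) =
      MvPolynomial.eval (Fin.cons 0 (fun i => if h : a i.succ ≠ 0 then y ⟨i, h⟩ else 0) :
        Fin (N + 1) → ℂ) g := by
    intro y
    have h3 : (MvPolynomial.eval y).comp
        (MvPolynomial.aeval (Fin.cons 0 (fun i => if h : a i.succ ≠ 0 then
      MvPolynomial.X (⟨i, h⟩ : σ) else 0) :
      Fin (N + 1) → MvPolynomial σ ℂ)).toRingHom =
        MvPolynomial.eval (Fin.cons 0 (fun i => if h : a i.succ ≠ 0 then y ⟨i, h⟩ else 0) :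
        Fin (N + 1) → ℂ) := by
      refine MvPolynomial.ringHom_ext (fun r => by simp) (fun i => ?_)
      refine Fin.cases ?_ (fun i => ?_) i
      · simp
      · by_cases h : a i.succ = 0
        · simp [h]
        · simp [h]
    exact congrArg (fun f => f g) h3
  have h4 : orb c a n = (Fin.cons 0 (fun i => if h : a i.succ ≠ 0 then
      (fun z => c i (Fin.last d) * z ^ d)^[n] (a i.succ) else 0) :
        Fin (N + 1) → ℂ) := by
    rw [orb_zero hd c a ha]
    congr 1
    funext i
    by_cases h : a i.succ ≠ 0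
    · rw [dif_pos h]
    · rw [dif_neg h]
      rw [not_not] at h
      rw [h]
      exact Function.iterate_fixed (by rw [zero_pow (by omega), mul_zero]) n
  rw [h1, h2, h4]

/-- no common zeros -/
theorem no_common_zero {N d : ℕ} (hd : 2 ≤ d) (c : Fin N → Fin (d + 1) → ℂ)
    (hc : ∀ i, c i (Fin.last d) ≠ 0) (x : Fin (N + 1) → ℂ)
    (hx : ∀ i, MvPolynomial.eval x (Phi c i) = 0) : x = 0 := by
  have h0 : x 0 = 0 := by
    have := hx 0
    rw [eval_Phi_zero] at this
    exact pow_eq_zero_iff (by omega) |>.1 this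
  funext i
  refine Fin.cases h0 (fun i => ?_) i
  have h1 := hx i.succ
  rw [eval_Phi_succ_zero c x h0, mul_eq_zero] at h1
  have h2 := h1.resolve_left (hc i)
  exact pow_eq_zero_iff (by omega) |>.1 h2

end Pool.Agent.Helper38.SP2
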