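import Pool.Agent.Helper38.SP.DvrPt

/-!
# Project SP, second part: independent p-adic integers congruent to given integers

BLUEPRINT. Adapt `exists_padic_unit_point` in `Pool/Agent/Helper38/SP/DvrPt.lean`: the point
constructed there is congruent to the integer point modulo `p`; keep this in the conclusion.
-/

set_option autoImplicit false

open Polynomial

namespace Pool.Agent.Helper38.SP2

/-- an affine change of the variables keeps algebraic independence -/
private theorem specA_affine {r : ℕ} {K : Type*} [Field K] [Algebra ℚ K] (s' : Fin r → K)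
    (h : AlgebraicIndependent ℚ s') (t c : Fin r → ℚ) (hc : ∀ i, c i ≠ 0) :
    AlgebraicIndependent ℚ (fun i => algebraMap ℚ K (t i) + algebraMap ℚ K (c i) * s' i) := by
  classical
  let φ : MvPolynomial (Fin r) ℚ →ₐ[ℚ] MvPolynomial (Fin r) ℚ :=
    MvPolynomial.aeval (fun i => MvPolynomial.C (t i) + MvPolynomial.C (c i) * MvPolynomial.X i)
  let ψ : MvPolynomial (Fin r) ℚ →ₐ[ℚ] MvPolynomial (Fin r) ℚ :=
    MvPolynomial.aeval (fun i => MvPolynomial.C (c i)⁻¹ * (MvPolynomial.X i - MvPolynomial.C (t i)))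
  have hψφ : ψ.comp φ = AlgHom.id ℚ _ := by
    apply MvPolynomial.algHom_ext
    intro i
    simp only [φ, ψ, AlgHom.comp_apply, MvPolynomial.aeval_X, map_add, map_mul,
      MvPolynomial.algHom_C, AlgHom.id_apply, MvPolynomial.algebraMap_eq]
    rw [← mul_assoc, ← MvPolynomial.C_mul, mul_inv_cancel₀ (hc i), MvPolynomial.C_1, one_mul]
    ring
  have hφ : Function.Injective φ := by
    intro x y hxy
    have h1 := congrArg ψ hxy
    have h2 : ∀ z, ψ (φ z) = z := fun z => by
      have := congrArg (fun f : MvPolynomial (Fin r) ℚ →ₐ[ℚ] MvPolynomial (Fin r) ℚ => f z) hψφ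
      simpa using this
    rwa [h2, h2] at h1
  have hcomp : (MvPolynomial.aeval (fun i => algebraMap ℚ K (t i) + algebraMap ℚ K (c i) * s' i) :
      MvPolynomial (Fin r) ℚ →ₐ[ℚ] K) = (MvPolynomial.aeval s').comp φ := by
    apply MvPolynomial.algHom_ext
    intro i
    simp only [φ, AlgHom.comp_apply, MvPolynomial.aeval_X, map_add, map_mul,
      MvPolynomial.algHom_C]
  have h' : Function.Injective (MvPolynomial.aeval s' : MvPolynomial (Fin r) ℚ →ₐ[ℚ] K) := h
  unfold AlgebraicIndependent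
  rw [hcomp]
  exact h'.comp hφ

/-- independent p-adic integers congruent to given integers -/
theorem exists_padic_point {r : ℕ} (D : MvPolynomial (Fin r) ℤ) (t₀ : Fin r → ℤ) (p : ℕ)
    [Fact p.Prime] (hp : ¬ (p : ℤ) ∣ MvPolynomial.eval t₀ D) :
    ∃ s : Fin r → ℚ_[p], AlgebraicIndependent ℚ s ∧ (∀ i, ‖s i - (t₀ i : ℚ_[p])‖ < 1) ∧
      ‖MvPolynomial.aeval s D‖ = 1 := by
  classical
  have hpf : Fact p.Prime := inferInstance
  obtain ⟨s', hs'⟩ := Pool.Agent.Helper37.exists_algebraicIndependent_padic p r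
  have hp1 : (1 : ℝ) < p := by exact_mod_cast hpf.out.one_lt
  have hN : ∀ i, ∃ N : ℕ, ‖(p : ℚ_[p]) ^ N * s' i‖ < 1 := by
    intro i
    obtain ⟨N, hN⟩ := exists_pow_lt_of_lt_one (show (0 : ℝ) < 1 / (‖s' i‖ + 1) by positivity)
      (inv_lt_one_of_one_lt₀ hp1)
    refine ⟨N, ?_⟩
    rw [norm_mul, norm_pow, Padic.norm_p]
    have h0 : 0 < ‖s' i‖ + 1 := by positivity
    rw [lt_div_iff₀ h0] at hN
    have h1 : 0 ≤ ((p : ℝ)⁻¹) ^ N := by positivity
    nlinarith [norm_nonneg (s' i)]
  choose N hN using hN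
  let s : Fin r → ℚ_[p] := fun i => algebraMap ℚ ℚ_[p] (t₀ i : ℚ) +
    algebraMap ℚ ℚ_[p] ((p : ℚ) ^ N i) * s' i
  have hs : ∀ i, s i = (t₀ i : ℚ_[p]) + (p : ℚ_[p]) ^ N i * s' i := by
    intro i
    simp [s]
  have hnorm : ∀ i, ‖s i‖ ≤ 1 := by
    intro i
    rw [hs i]
    refine (Padic.nonarchimedean _ _).trans ?_
    apply max_le
    · exact Padic.norm_int_le_one (t₀ i)
    · exact (hN i).le
  have hclose : ∀ i, ‖s i - (t₀ i : ℚ_[p])‖ < 1 := by
    intro i
    rw [hs i, add_sub_cancel_left]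
    exact hN i
  refine ⟨s, ?_, hclose, ?_⟩
  · apply specA_affine s' hs'
    intro i
    exact pow_ne_zero _ (by exact_mod_cast hpf.out.ne_zero)
  · let σ : Fin r → ℤ_[p] := fun i => ⟨s i, hnorm i⟩
    have h1 : ((MvPolynomial.aeval σ D : ℤ_[p]) : ℚ_[p]) = MvPolynomial.aeval s D := by
      have h2 := MvPolynomial.map_aeval σ (PadicInt.Coe.ringHom (p := p)) D
      have h3 : (PadicInt.Coe.ringHom (p := p)) (MvPolynomial.aeval σ D) =
        ((MvPolynomial.aeval σ D : ℤ_[p]) : ℚ_[p]) := rfl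
      rw [← h3, h2, MvPolynomial.aeval_def]
      congr 1
    have h4 : PadicInt.toZMod (MvPolynomial.aeval σ D) = ((MvPolynomial.eval t₀ D : ℤ) : ZMod p) := by
      have h5 := MvPolynomial.map_aeval σ (PadicInt.toZMod (p := p)) D
      rw [h5]
      have h6 : ∀ i, PadicInt.toZMod (σ i) = ((t₀ i : ℤ) : ZMod p) := by
        intro i
        obtain ⟨w, hw⟩ : ∃ w : ℤ_[p], (w : ℚ_[p]) = (p : ℚ_[p]) ^ N i * s' i :=
          ⟨⟨_, (hN i).le⟩, rfl⟩
        have h7 : σ i = (t₀ i : ℤ_[p]) + w := by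
          apply Subtype.ext
          rw [PadicInt.coe_add, hw, PadicInt.coe_intCast]
          exact hs i
        have h8 : PadicInt.toZMod w = 0 := by
          have h9 : w ∈ RingHom.ker (PadicInt.toZMod (p := p)) := by
            rw [PadicInt.ker_toZMod, IsLocalRing.mem_maximalIdeal, PadicInt.mem_nonunits,
              PadicInt.norm_def, hw]
            exact hN i
          exact h9
        rw [h7, map_add, h8, add_zero, map_intCast]
      have h10 : (fun i => PadicInt.toZMod (σ i)) = fun i => (Int.castRingHom (ZMod p)) (t₀ i) := by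
        funext i
        rw [h6 i]; rfl
      rw [h10]
      have h11 : (PadicInt.toZMod (p := p)).comp (algebraMap ℤ ℤ_[p]) =
          Int.castRingHom (ZMod p) := RingHom.ext_int _ _
      rw [h11]
      have h12 := MvPolynomial.eval₂_comp_left (Int.castRingHom (ZMod p)) (RingHom.id ℤ) t₀ D
      rw [RingHom.comp_id] at h12
      exact h12.symm
    have h5 : PadicInt.toZMod (MvPolynomial.aeval σ D) ≠ 0 := by
      rw [h4]
      intro h
      rw [ZMod.intCast_zmod_eq_zero_iff_dvd] at h
      exact hp h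
    have h6 : ‖(MvPolynomial.aeval σ D : ℤ_[p])‖ = 1 := by
      by_contra hne
      have hlt : ‖(MvPolynomial.aeval σ D : ℤ_[p])‖ < 1 :=
        lt_of_le_of_ne (PadicInt.norm_le_one _) hne
      apply h5
      have h9 : (MvPolynomial.aeval σ D : ℤ_[p]) ∈ RingHom.ker (PadicInt.toZMod (p := p)) := by
        rw [PadicInt.ker_toZMod, IsLocalRing.mem_maximalIdeal, PadicInt.mem_nonunits]
        exact hlt
      exact h9
    rw [← h1]
    exact h6

end Pool.Agent.Helper38.SP2
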